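import Pool.Agent.Helper32_ND.Stmts

/-!
# The n/d theorem, module CRD: coordinates
-/

set_option autoImplicit false
set_option linter.unusedSectionVars false

namespace Pool.Agent.ND.H38

open Module

section deg

variable {σ : Type} [Fintype σ] [DecidableEq σ]

/-- the linear form `x` centred at `z` -/
noncomputable def Zf (z x : σ → ℂ) : MvPolynomial σ ℂ :=
  ∑ l, MvPolynomial.C (x l) * (MvPolynomial.X l - MvPolynomial.C (z l))

theorem deg_one (P : MvPolynomial σ ℂ) (hP : P.totalDegree ≤ 1) :
    P = MvPolynomial.C (MvPolynomial.coeff 0 P) +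
      ∑ l, MvPolynomial.C (lp P l) * MvPolynomial.X l := by
  ext m
  rw [MvPolynomial.coeff_add, MvPolynomial.coeff_sum, MvPolynomial.coeff_C]
  simp only [MvPolynomial.coeff_C_mul, MvPolynomial.coeff_X]
  by_cases h0 : m = 0
  · subst h0
    rw [if_pos rfl, Finset.sum_eq_zero, add_zero]
    intro l _
    rw [if_neg, mul_zero]
    simp
  · rw [if_neg (fun h => h0 h.symm), zero_add]
    by_cases h1 : ∃ l, Finsupp.single l 1 = m
    · obtain ⟨l, rfl⟩ := h1
      rw [Finset.sum_eq_single l]
      · rw [if_pos rfl, mul_one]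
        rfl
      · intro l' _ hl'
        rw [if_neg, mul_zero]
        intro h
        exact hl' (Finsupp.single_left_injective one_ne_zero h)
      · intro h
        exact absurd (Finset.mem_univ l) h
    · push Not at h1
      rw [Finset.sum_eq_zero (fun l _ => by rw [if_neg (h1 l), mul_zero])]
      apply MvPolynomial.coeff_eq_zero_of_totalDegree_lt
      refine lt_of_le_of_lt hP ?_
      by_contra hle
      push Not at hle
      obtain ⟨l, hl⟩ : ∃ l, l ∈ m.support := by
        by_contra hc
        push Not at hc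
        apply h0
        ext l
        simpa using hc l
      have hml : 1 ≤ m l := Nat.one_le_iff_ne_zero.2 (Finsupp.mem_support_iff.1 hl)
      apply h1 l
      ext l'
      by_cases hll : l' = l
      · subst hll
        rw [Finsupp.single_eq_same]
        have := Finset.single_le_sum (f := fun i => m i) (fun i _ => Nat.zero_le _) hl
        omega
      · rw [Finsupp.single_apply, if_neg (fun h => hll h.symm)]
        by_contra hne
        have hl' : l' ∈ m.support := Finsupp.mem_support_iff.2 (fun h => hne h.symm)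
        have h2 : m l + m l' ≤ ∑ i ∈ m.support, m i := by
          rw [← Finset.sum_pair (fun h => hll h.symm)]
          apply Finset.sum_le_sum_of_subset
          intro x hx
          rw [Finset.mem_insert, Finset.mem_singleton] at hx
          rcases hx with rfl | rfl
          · exact hl
          · exact hl'
        have h3 : 1 ≤ m l' := Nat.one_le_iff_ne_zero.2 (fun h => hne h.symm)
        omega

theorem eq_Zf (P : MvPolynomial σ ℂ) (hP : P.totalDegree ≤ 1) (z : σ → ℂ)
    (hz : MvPolynomial.eval z P = 0) : P = Zf z (lp P) := by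
  have h1 := deg_one P hP
  have h2 : MvPolynomial.coeff 0 P = - ∑ l, lp P l * z l := by
    rw [h1] at hz
    simp only [map_add, map_sum, map_mul, MvPolynomial.eval_C, MvPolynomial.eval_X] at hz
    exact eq_neg_of_add_eq_zero_left hz
  conv_lhs => rw [h1, h2]
  unfold Zf
  simp only [mul_sub, Finset.sum_sub_distrib, map_neg, map_sum, map_mul]
  ring

theorem lp_ne (P : MvPolynomial σ ℂ) (hP : P.totalDegree = 1) : lp P ≠ 0 := by
  intro h
  have h1 := deg_one P hP.le
  rw [h] at h1
  simp only [Pi.zero_apply, map_zero, zero_mul, Finset.sum_const_zero, add_zero] at h1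
  rw [h1, MvPolynomial.totalDegree_C] at hP
  omega

end deg

section change

variable {σ J : Type} [Fintype σ] [DecidableEq σ] [Fintype J] [DecidableEq J]
  (b : Basis J ℂ (σ → ℂ)) (z : σ → ℂ)

theorem sum_repr1 (x : σ → ℂ) (j : J) : ∑ l, x l * b.repr (Pi.single l 1) j = b.repr x j := by
  conv_rhs => rw [pi_eq_sum_univ' x]
  rw [map_sum, Finsupp.finsetSum_apply]
  refine Finset.sum_congr rfl fun l _ => ?_
  rw [map_smul, Finsupp.smul_apply, smul_eq_mul]

theorem sum_repr2 (l l' : σ) : ∑ j, b.repr (Pi.single l 1) j * b j l' =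
    (Pi.single l 1 : σ → ℂ) l' := by
  conv_rhs => rw [← b.sum_repr (Pi.single l 1)]
  rw [Finset.sum_apply]
  rfl

/-- the new coordinates of the old variables -/
noncomputable def fwd (l : σ) : MvPolynomial J ℂ :=
  MvPolynomial.C (z l) + ∑ j, MvPolynomial.C (b.repr (Pi.single l 1) j) * MvPolynomial.X j

theorem aeval_Zf (x : σ → ℂ) : MvPolynomial.aeval (fwd b z) (Zf z x) =
    ∑ j, MvPolynomial.C (b.repr x j) * MvPolynomial.X j := by
  unfold Zf
  rw [map_sum]
  have h1 : ∀ l, MvPolynomial.aeval (fwd b z) (MvPolynomial.C (x l) *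
      (MvPolynomial.X l - MvPolynomial.C (z l)) : MvPolynomial σ ℂ) =
      ∑ j, MvPolynomial.C (x l * b.repr (Pi.single l 1) j) * MvPolynomial.X j := by
    intro l
    rw [map_mul, map_sub, MvPolynomial.aeval_X, MvPolynomial.aeval_C, MvPolynomial.aeval_C]
    unfold fwd
    rw [MvPolynomial.algebraMap_eq, add_sub_cancel_left, Finset.mul_sum]
    refine Finset.sum_congr rfl fun j _ => ?_
    rw [map_mul]
    ring
  simp only [h1]
  rw [Finset.sum_comm]
  refine Finset.sum_congr rfl fun j _ => ?_
  rw [← Finset.sum_mul, ← map_sum, sum_repr1]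

/-- the change of coordinates -/
noncomputable def chg : MvPolynomial σ ℂ ≃ₐ[ℂ] MvPolynomial J ℂ :=
  AlgEquiv.ofAlgHom (MvPolynomial.aeval (fwd b z)) (MvPolynomial.aeval fun j => Zf z (b j))
    (by
      apply MvPolynomial.algHom_ext
      intro j
      rw [AlgHom.comp_apply, MvPolynomial.aeval_X, aeval_Zf, AlgHom.id_apply]
      rw [Finset.sum_eq_single j]
      · rw [b.repr_self, Finsupp.single_eq_same, map_one, one_mul]
      · intro j' _ hj
        rw [b.repr_self, Finsupp.single_apply, if_neg (fun h => hj h.symm), map_zero, zero_mul]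
      · intro h
        exact absurd (Finset.mem_univ j) h)
    (by
      apply MvPolynomial.algHom_ext
      intro l
      rw [AlgHom.comp_apply, MvPolynomial.aeval_X, AlgHom.id_apply]
      unfold fwd
      rw [map_add, map_sum, MvPolynomial.aeval_C, MvPolynomial.algebraMap_eq]
      simp only [map_mul, MvPolynomial.aeval_C, MvPolynomial.aeval_X, MvPolynomial.algebraMap_eq]
      unfold Zf
      simp only [Finset.mul_sum]
      rw [Finset.sum_comm]
      have h1 : ∀ l', ∑ j, MvPolynomial.C (b.repr (Pi.single l 1) j) *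
          (MvPolynomial.C (b j l') * (MvPolynomial.X l' - MvPolynomial.C (z l')) :
            MvPolynomial σ ℂ) =
          MvPolynomial.C ((Pi.single l 1 : σ → ℂ) l') *
            (MvPolynomial.X l' - MvPolynomial.C (z l')) := by
        intro l'
        rw [← sum_repr2 b l l', map_sum, Finset.sum_mul]
        refine Finset.sum_congr rfl fun j _ => ?_
        rw [map_mul]
        ring
      simp only [h1]
      rw [Finset.sum_eq_single l]
      · rw [Pi.single_eq_same, map_one, one_mul]
        ring
      · intro l' _ hl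
        rw [Pi.single_eq_of_ne hl, map_zero, zero_mul]
      · intro h
        exact absurd (Finset.mem_univ l) h)

theorem chg_apply (P : MvPolynomial σ ℂ) : chg b z P = MvPolynomial.aeval (fwd b z) P := rfl

theorem chg_const (P : MvPolynomial σ ℂ) :
    MvPolynomial.constantCoeff (chg b z P) = MvPolynomial.eval z P := by
  rw [chg_apply]
  have h : (MvPolynomial.constantCoeff (R := ℂ) (σ := J)).comp
      (MvPolynomial.aeval (fwd b z) : MvPolynomial σ ℂ →ₐ[ℂ] MvPolynomial J ℂ).toRingHom =
      MvPolynomial.eval z := by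
    apply MvPolynomial.ringHom_ext
    · intro r
      simp
    · intro l
      simp [fwd]
  exact RingHom.congr_fun h P

end change

theorem crd : CrdStmt := by
  intro σ ι _ _ a ha z hz g hg hc M hM
  classical
  have : Fintype σ := Fintype.ofFinite σ
  obtain ⟨κ0, s, hs, hspan, hli⟩ := exists_linearIndependent' ℂ (fun i => lp (a i))
  have : Finite κ0 := Finite.of_injective s hs
  have : Fintype κ0 := Fintype.ofFinite κ0
  have hcard : Fintype.card κ0 = M + 2 := by
    rw [← finrank_span_eq_card hli, hspan]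
    exact hM
  obtain ⟨eq⟩ : Nonempty (Fin (M + 2) ≃ κ0) := ⟨(Fintype.equivFinOfCardEq hcard).symm⟩
  obtain ⟨B, hB⟩ : ∃ B : Fin (M + 2) → ι, B = s ∘ eq := ⟨_, rfl⟩
  have hliB : LinearIndependent ℂ (fun p => lp (a (B p))) := by
    have h1 := hli.comp eq eq.injective
    rw [hB]
    exact h1
  obtain ⟨W, hW⟩ : ∃ W : Submodule ℂ (σ → ℂ),
    W = Submodule.span ℂ (Set.range fun p => lp (a (B p))) := ⟨_, rfl⟩
  have hmem : ∀ i, lp (a i) ∈ W := by
    intro i
    have h1 : lp (a i) ∈ Submodule.span ℂ (Set.range fun i => lp (a i)) :=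
      Submodule.subset_span ⟨i, rfl⟩
    rw [← hspan] at h1
    rw [hW]
    refine Submodule.span_mono ?_ h1
    rintro x ⟨k, rfl⟩
    exact ⟨eq.symm k, by simp [hB]⟩
  obtain ⟨W', hW'⟩ := W.exists_isCompl
  have hfin : Finite (Fin (finrank ℂ W')) := inferInstance
  obtain ⟨b, hb⟩ : ∃ b : Basis (Fin (M + 2) ⊕ Fin (finrank ℂ W')) ℂ (σ → ℂ),
      ∀ p, b (Sum.inl p) = lp (a (B p)) := by
    subst hW
    refine ⟨((Basis.span hliB).prod (Module.finBasis ℂ W')).map
      (Submodule.prodEquivOfIsCompl _ W' hW'), fun p => ?_⟩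
    rw [Basis.map_apply, Submodule.coe_prodEquivOfIsCompl', Basis.prod_apply_inl_fst,
      Basis.prod_apply_inl_snd, Submodule.coe_zero, add_zero, Basis.span_apply]
  have hzero : ∀ x ∈ W, ∀ j, b.repr x (Sum.inr j) = 0 := by
    intro x hx j
    rw [hW] at hx
    refine Submodule.span_induction (p := fun x _ => b.repr x (Sum.inr j) = 0) ?_ ?_ ?_ ?_ hx
    · rintro _ ⟨p, rfl⟩
      simp only
      rw [← hb p, b.repr_self, Finsupp.single_apply, if_neg]
      simp
    · simp
    · intro x y _ _ h1 h2
      rw [map_add, Finsupp.add_apply, h1, h2, add_zero]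
    · intro c x _ h1
      rw [map_smul, Finsupp.smul_apply, h1, smul_zero]
  have hdet : ∀ x ∈ W, (∀ p, b.repr x (Sum.inl p) = 0) → x = 0 := by
    intro x hx h
    have h1 : b.repr x = 0 := by
      ext j
      rcases j with p | j
      · exact h p
      · exact hzero x hx j
    exact b.repr.map_eq_zero_iff.1 h1
  obtain ⟨L, hL⟩ : ∃ L : ι → Fin (M + 2) → ℂ, ∀ i p, L i p = b.repr (lp (a i)) (Sum.inl p) :=
    ⟨_, fun _ _ => rfl⟩
  have hLB : ∀ p, L (B p) = Pi.single p 1 := by
    intro p
    ext p'
    rw [hL, ← hb p, b.repr_self, Finsupp.single_apply, Pi.single_apply]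
    by_cases h : p = p'
    · subst h
      simp
    · rw [if_neg, if_neg (fun h' => h h'.symm)]
      intro h'
      exact h (Sum.inl_injective h')
  refine ⟨L, B, Fin (finrank ℂ W'), inferInstance, chg b z, ?_, hLB, ?_, ?_, ?_⟩
  · intro i hi
    apply lp_ne (a i) (ha i)
    apply hdet _ (hmem i)
    intro p
    rw [← hL, hi]
    rfl
  · -- connectedness
    intro S hS hSu
    by_contra hcon
    push Not at hcon
    have hS' : ∃ p, p ∉ S := by
      by_contra h
      push Not at h
      exact hSu (Finset.eq_univ_iff_forall.2 h)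
    obtain ⟨p0, hp0⟩ := hS
    obtain ⟨p1, hp1⟩ := hS'
    refine hc {i | ∀ p ∉ S, L i p = 0} ⟨B p0, ?_⟩ ⟨B p1, ?_⟩ ?_
    · intro p hp
      rw [hLB, Pi.single_eq_of_ne]
      rintro rfl
      exact hp hp0
    · intro h
      have h1 := h p1 hp1
      rw [hLB, Pi.single_eq_same] at h1
      exact one_ne_zero h1
    · have hin : ∀ x ∈ Submodule.span ℂ ((fun i => lp (a i)) '' {i | ∀ p ∉ S, L i p = 0}),
          x ∈ W ∧ ∀ p ∉ S, b.repr x (Sum.inl p) = 0 := by
        intro x hx
        refine Submodule.span_induction (p := fun x _ => x ∈ W ∧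
          ∀ p ∉ S, b.repr x (Sum.inl p) = 0) ?_ ?_ ?_ ?_ hx
        · rintro _ ⟨i, hi, rfl⟩
          refine ⟨hmem i, fun p hp => ?_⟩
          simp only
          rw [← hL]
          exact hi p hp
        · exact ⟨W.zero_mem, fun p _ => by simp⟩
        · rintro x y _ _ ⟨h1, h1'⟩ ⟨h2, h2'⟩
          refine ⟨W.add_mem h1 h2, fun p hp => ?_⟩
          rw [map_add, Finsupp.add_apply, h1' p hp, h2' p hp, add_zero]
        · rintro c x _ ⟨h1, h1'⟩
          refine ⟨W.smul_mem c h1, fun p hp => ?_⟩
          rw [map_smul, Finsupp.smul_apply, h1' p hp, smul_zero]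
      have hout : ∀ x ∈ Submodule.span ℂ ((fun i => lp (a i)) '' {i | ∀ p ∉ S, L i p = 0}ᶜ),
          ∀ p ∈ S, b.repr x (Sum.inl p) = 0 := by
        intro x hx
        refine Submodule.span_induction (p := fun x _ =>
          ∀ p ∈ S, b.repr x (Sum.inl p) = 0) ?_ ?_ ?_ ?_ hx
        · rintro _ ⟨i, hi, rfl⟩ p hp
          simp only
          rw [← hL]
          by_contra hne
          apply hi
          intro p' hp'
          exact hcon i ⟨p, hp, hne⟩ p' hp'
        · intro p _
          simp
        · intro x y _ _ h1 h2 p hp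
          rw [map_add, Finsupp.add_apply, h1 p hp, h2 p hp, add_zero]
        · intro c x _ h1 p hp
          rw [map_smul, Finsupp.smul_apply, h1 p hp, smul_zero]
      rw [Submodule.disjoint_def]
      intro x hx hx'
      apply hdet x (hin x hx).1
      intro p
      by_cases hp : p ∈ S
      · exact hout x hx' p hp
      · exact (hin x hx).2 p hp
  · intro i
    conv_lhs => rw [eq_Zf (a i) (ha i).le z (hz i)]
    rw [chg_apply, aeval_Zf, Fintype.sum_sum_type]
    have h1 : ∑ j, MvPolynomial.C (b.repr (lp (a i)) (Sum.inr j)) *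
        (MvPolynomial.X (Sum.inr j) : MvPolynomial (Fin (M + 2) ⊕ Fin (finrank ℂ W')) ℂ) = 0 := by
      refine Finset.sum_eq_zero fun j _ => ?_
      rw [hzero _ (hmem i) j, map_zero, zero_mul]
    rw [h1, add_zero]
    unfold lin
    rw [map_sum]
    refine Finset.sum_congr rfl fun p _ => ?_
    rw [map_mul, MvPolynomial.rename_C, MvPolynomial.rename_X, hL]
  · rw [chg_const]
    exact hg

end Pool.Agent.ND.H38
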